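import Mathlib

/-!
A matrix of units with `M M* = v I` but `M* M ≠ v I`.

The ring is `R = (ℤ/9)[ω]` with `ω² = -1 - ω` (81 elements, commutative), `v = 3`,
`w = 3 + 6 ω` satisfies `w² = 0`, `(1 + 2 ω) w = 0`, and `c = ω² + w = 2 + 5 ω` satisfies
`1 + c + c² = 0`. The matrix with rows `(1, 1, 1)`, `(1, ω, ω²)`, `(1, c, c²)` satisfies
`M M* = 3 I`, while the entry `(1, 2)` of `M* M` is `1 + ω + c = w ≠ 0`.
-/

set_option autoImplicit false

namespace Pool.Agent.Results.MP_4780e6_al.OneSidedOnly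

/-- `(ℤ/9)[ω]` with `ω² = -1 - ω`. -/
abbrev R9 : Type := QuadraticAlgebra (ZMod 9) (-1) (-1)

/-- The unit `ω` (inverse `ω² = -1 - ω`). -/
def a : R9ˣ := ⟨⟨0, 1⟩, ⟨-1, -1⟩, by decide, by decide⟩

/-- The unit `c = 2 + 5 ω` (inverse `c² = -1 - c = -3 - 5 ω`). -/
def c : R9ˣ := ⟨⟨2, 5⟩, ⟨-3, -5⟩, by decide, by decide⟩

/-- The matrix with rows `(1, 1, 1)`, `(1, ω, ω²)`, `(1, c, c²)`. -/
def m : Fin 3 → Fin 3 → R9ˣ := ![![1, 1, 1], ![1, a, a⁻¹], ![1, c, c⁻¹]]

/-- There are a finite commutative ring `R`, an integer `v ≥ 2` with `v ≠ 0` in `R`, a subgroup `N`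
of the unit group in which all cubes are `1`, and a `v × v` matrix `M` with entries in `N`, such
that `M M* = v I` and `M* M ≠ v I`, where `M*` is the transpose of the matrix of entrywise
inverses. -/
theorem result : ∃ (R : Type) (_ : CommRing R) (_ : Finite R) (v : ℕ) (N : Subgroup Rˣ)
    (M : Fin v → Fin v → Rˣ), 2 ≤ v ∧ (v : R) ≠ 0 ∧ (∀ u ∈ N, u ^ 3 = 1) ∧ (∀ i j, M i j ∈ N) ∧
    (Matrix.of fun i j => ((M i j : Rˣ) : R)) * (Matrix.of fun i j => (((M j i)⁻¹ : Rˣ) : R)) =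
      (v : R) • (1 : Matrix (Fin v) (Fin v) R) ∧
    (Matrix.of fun i j => (((M j i)⁻¹ : Rˣ) : R)) * (Matrix.of fun i j => ((M i j : Rˣ) : R)) ≠
      (v : R) • (1 : Matrix (Fin v) (Fin v) R) := by
  refine ⟨R9, inferInstance, Finite.of_equiv _ (QuadraticAlgebra.equivProd _ _).symm, 3,
    { carrier := {u | u ^ 3 = 1}
      mul_mem' := ?_
      one_mem' := ?_
      inv_mem' := ?_ }, m, le_of_lt (by norm_num), by decide, fun u hu => hu, ?_, ?_, ?_⟩
  · intro x y hx hy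
    simp only [Set.mem_setOf_eq] at hx hy ⊢
    rw [mul_pow, hx, hy, one_mul]
  · simp
  · intro x hx
    simp only [Set.mem_setOf_eq] at hx ⊢
    rw [inv_pow, hx, inv_one]
  · intro i j
    show m i j ^ 3 = 1
    apply Units.ext
    revert i j
    decide
  · ext i j : 1
    rw [Matrix.mul_apply, Matrix.smul_apply, Matrix.one_apply]
    revert i j
    decide
  · intro h
    have h1 := congrFun (congrFun h 0) 1
    rw [Matrix.mul_apply, Matrix.smul_apply, Matrix.one_apply] at h1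
    revert h1
    decide

end Pool.Agent.Results.MP_4780e6_al.OneSidedOnly
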